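import Pool.Agent.Helper92.BW.GoalsA

/-!
# MP_481f43_lc: packet BW-EXT
-/

namespace Pool.Agent.Helper35.BW

open MeasureTheory Pool.Agent.Helper92.BW
open scoped ENNReal

noncomputable section

theorem abv_le {par : ℕ → ℕ} (hp : ∀ i, i ≤ par i) {i j : ℕ} (h : Abv par i j) : i ≤ j := by
  obtain ⟨t, rfl⟩ := h
  induction t with
  | zero => simp
  | succ t ih =>
    rw [Function.iterate_succ', Function.comp]
    exact ih.trans (hp _)

theorem abv_refl (par : ℕ → ℕ) (i : ℕ) : Abv par i i := ⟨0, rfl⟩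

theorem abv_trans {par : ℕ → ℕ} {i j k : ℕ} (h : Abv par i j) (h' : Abv par j k) :
    Abv par i k := by
  obtain ⟨s, rfl⟩ := h
  obtain ⟨t, rfl⟩ := h'
  exact ⟨t + s, by rw [Function.iterate_add, Function.comp]⟩

theorem abv_total {par : ℕ → ℕ} {i j k : ℕ} (h : Abv par i j) (h' : Abv par i k) :
    Abv par j k ∨ Abv par k j := by
  obtain ⟨s, rfl⟩ := h
  obtain ⟨t, rfl⟩ := h'
  rcases le_total s t with hst | hst
  · left
    refine ⟨t - s, ?_⟩
    rw [← Function.comp_apply (f := par^[t - s]), ← Function.iterate_add, Nat.sub_add_cancel hst]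
  · right
    refine ⟨s - t, ?_⟩
    rw [← Function.comp_apply (f := par^[s - t]), ← Function.iterate_add, Nat.sub_add_cancel hst]

/-- If `j` is above `i` and different from `i` then it is above the parent of `i`. -/
theorem abv_par {par : ℕ → ℕ} {i j : ℕ} (h : Abv par i j) (hne : i ≠ j) : Abv par (par i) j := by
  obtain ⟨t, rfl⟩ := h
  cases t with
  | zero => exact absurd rfl hne
  | succ t => exact ⟨t, by rw [Function.iterate_succ, Function.comp]⟩

/-- The last vertex before `v` on the way from `j` up to `v`. -/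
theorem abv_child {n : ℕ} {par : ℕ → ℕ} (hp : ∀ i, i ≤ par i) (hp' : ∀ i < n, i < par i)
    {v : Fin n} {j : ℕ} (h : Abv par j v) (hne : j ≠ v) : ∃ c : Ch par v, Abv par j (c.1 : ℕ) := by
  obtain ⟨t, ht⟩ := h
  cases t with
  | zero => exact absurd ht hne
  | succ t =>
    rw [Function.iterate_succ', Function.comp] at ht
    have h1 : par^[t] j ≤ v := by
      rw [← ht]
      exact hp _
    have h2 : par^[t] j < n := lt_of_le_of_lt h1 v.2
    have h3 : par^[t] j < v := by
      have := hp' _ h2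
      rw [ht] at this
      exact this
    exact ⟨⟨⟨par^[t] j, h2⟩, h3, ht⟩, ⟨t, rfl⟩⟩

theorem child_unique {n : ℕ} {par : ℕ → ℕ} (hp : ∀ i, i ≤ par i) {v : Fin n} {j : ℕ}
    (c c' : Ch par v) (h : Abv par j (c.1 : ℕ)) (h' : Abv par j (c'.1 : ℕ)) : c = c' := by
  have key : ∀ d d' : Ch par v, Abv par (d.1 : ℕ) (d'.1 : ℕ) → d = d' := by
    intro d d' hd
    by_contra hne
    have hne' : (d.1 : ℕ) ≠ (d'.1 : ℕ) := fun e => hne (Subtype.ext (Fin.ext e))
    have h1 := abv_par hd hne'
    rw [d.2.2] at h1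
    have h2 := abv_le hp h1
    have h3 : (d'.1 : ℕ) < v := d'.2.1
    omega
  rcases abv_total h h' with hh | hh
  · exact key _ _ hh
  · exact (key _ _ hh).symm

theorem ip_congr {n : ℕ} {x y z : Fin n → ℝ} (h : ∀ j, x j ≠ 0 → y j = z j) : ip x y = ip x z := by
  unfold ip
  refine Finset.sum_congr rfl fun j _ => ?_
  by_cases hx : x j = 0
  · rw [hx, zero_mul, zero_mul]
  · rw [h j hx]

/-- The integrand of the message. -/
def intg {n : ℕ} {ι : Type} [Fintype ι] (par : ℕ → ℕ) (low : ι → Fin n) (a : ι → Fin n → ℝ)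
    (s : ι → ℝ) (τ : ℝ) (v : Fin n) (u : Fin n → ℝ) (t : ℝ) : ℝ≥0∞ :=
  (∏ r ∈ Finset.univ.filter (fun r => low r = v), ind a s τ r (Function.update u v t)) *
    ∏ c : Ch par v, msg par low a s τ c.1 (Function.update u v t)

theorem ext_aux {n : ℕ} {ι : Type} [Fintype ι] (par : ℕ → ℕ) (low : ι → Fin n)
    (a : ι → Fin n → ℝ) (s : ι → ℝ) (τ : ℝ) (hC : Chain par low a) :
    ∀ (m : ℕ) (v : Fin n), v.val = m → ∀ (u : Fin n → ℝ) (t : ℝ), intg par low a s τ v u t ≠ 0 →
    ∃ u'' : Fin n → ℝ, u'' v = t ∧ (∀ j : Fin n, ¬ Abv par j v → u'' j = u j) ∧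
      ∀ r, Abv par (low r) v → -(τ * s r) ≤ ip (a r) u'' := by
  classical
  obtain ⟨hp, hp', hrow⟩ := hC
  intro m
  induction m using Nat.strong_induction_on with
  | _ m ih =>
  intro v hv u t hI
  have hA : ∏ r ∈ Finset.univ.filter (fun r => low r = v),
      ind a s τ r (Function.update u v t) ≠ 0 := left_ne_zero_of_mul hI
  have hB : ∏ c : Ch par v, msg par low a s τ c.1 (Function.update u v t) ≠ 0 :=
    right_ne_zero_of_mul hI
  set u1 := Function.update u v t with hu1
  have hA' : ∀ r, low r = v → -(τ * s r) ≤ ip (a r) u1 := by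
    intro r hr
    have h1 : ind a s τ r u1 ≠ 0 :=
      Finset.prod_ne_zero_iff.1 hA r (Finset.mem_filter.2 ⟨Finset.mem_univ _, hr⟩)
    by_contra h2
    exact h1 (if_neg h2)
  have hB' : ∀ c : Ch par v, ∃ w : Fin n → ℝ, (∀ j : Fin n, ¬ Abv par j c.1 → w j = u1 j) ∧
      ∀ r, Abv par (low r) (c.1 : ℕ) → -(τ * s r) ≤ ip (a r) w := by
    intro c
    have h1 : msg par low a s τ c.1 u1 ≠ 0 := Finset.prod_ne_zero_iff.1 hB c (Finset.mem_univ _)
    have h2 : ∃ t', intg par low a s τ c.1 u1 t' ≠ 0 := by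
      by_contra hne
      push Not at hne
      apply h1
      rw [msg_eq]
      have h3 : (fun t' => intg par low a s τ c.1 u1 t') = fun _ => 0 := funext hne
      have h4 : ∫⁻ t', intg par low a s τ c.1 u1 t' = 0 := by
        rw [h3]
        exact lintegral_zero
      exact h4
    obtain ⟨t', ht'⟩ := h2
    have hc : (c.1 : Fin n).val < m := by
      rw [← hv]
      exact c.2.1
    obtain ⟨w, _, hw1, hw2⟩ := ih _ hc c.1 rfl u1 t' ht'
    exact ⟨w, hw1, hw2⟩
  choose W hW1 hW2 using hB'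
  let u'' : Fin n → ℝ := fun j =>
    if h : ∃ c : Ch par v, Abv par (j : ℕ) (c.1 : ℕ) then W h.choose j else u1 j
  have hbel : ∀ (j : Fin n) (c : Ch par v), Abv par (j : ℕ) (c.1 : ℕ) → u'' j = W c j := by
    intro j c hj
    have h : ∃ c : Ch par v, Abv par (j : ℕ) (c.1 : ℕ) := ⟨c, hj⟩
    have e : h.choose = c := child_unique hp _ _ h.choose_spec hj
    change (if h : ∃ c : Ch par v, Abv par (j : ℕ) (c.1 : ℕ) then W h.choose j else u1 j) = _
    rw [dif_pos h, e]
  have hnot : ∀ (j : Fin n), (¬ ∃ c : Ch par v, Abv par (j : ℕ) (c.1 : ℕ)) → u'' j = u1 j := by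
    intro j h
    change (if h : ∃ c : Ch par v, Abv par (j : ℕ) (c.1 : ℕ) then W h.choose j else u1 j) = _
    rw [dif_neg h]
  -- indices which are not smaller than `v`
  have hge : ∀ j : Fin n, v ≤ j → u'' j = u1 j ∧ ∀ c : Ch par v, ¬ Abv par (j : ℕ) (c.1 : ℕ) := by
    intro j hj
    have h : ∀ c : Ch par v, ¬ Abv par (j : ℕ) (c.1 : ℕ) := by
      intro c hc
      have h1 := abv_le hp hc
      have h2 : (c.1 : ℕ) < v := c.2.1
      have h3 : (v : ℕ) ≤ j := hj
      omega
    exact ⟨hnot j (fun ⟨c, hc⟩ => h c hc), h⟩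
  refine ⟨u'', ?_, ?_, ?_⟩
  · rw [(hge v le_rfl).1, hu1, Function.update_self]
  · intro j hj
    have h1 : ¬ ∃ c : Ch par v, Abv par (j : ℕ) (c.1 : ℕ) := by
      rintro ⟨c, hc⟩
      apply hj
      have h2 : Abv par (c.1 : ℕ) (v : ℕ) := ⟨1, c.2.2⟩
      exact abv_trans hc h2
    have h2 : j ≠ v := fun e => hj (e ▸ abv_refl par _)
    rw [hnot j h1, hu1, Function.update_of_ne h2]
  · intro r hr
    by_cases hlr : (low r : ℕ) = v
    · have hlr' : low r = v := Fin.ext hlr
      have h1 : ip (a r) u'' = ip (a r) u1 := by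
        refine ip_congr fun j hj => ?_
        have h2 := abv_le hp (hrow r j hj)
        rw [hlr] at h2
        exact (hge j h2).1
      rw [h1]
      exact hA' r hlr'
    · obtain ⟨c, hc⟩ := abv_child hp hp' hr hlr
      have h1 : ip (a r) u'' = ip (a r) (W c) := by
        refine ip_congr fun j hj => ?_
        by_cases hjc : Abv par (j : ℕ) (c.1 : ℕ)
        · exact hbel j c hjc
        · have h2 : Abv par (c.1 : ℕ) (j : ℕ) := by
            rcases abv_total (hrow r j hj) hc with h | h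
            · exact absurd h hjc
            · exact h
          have h3 : (c.1 : ℕ) ≠ (j : ℕ) := fun e => hjc (e ▸ abv_refl par _)
          have h4 := abv_par h2 h3
          rw [c.2.2] at h4
          have h5 : v ≤ j := abv_le hp h4
          rw [(hge j h5).1, hW1 c j hjc]
      rw [h1]
      exact hW2 c r hc

theorem ext : ExtStmt := by
  intro n ι _ par low a s τ hC v u t hI
  exact ext_aux par low a s τ hC _ v rfl u t hI

end

end Pool.Agent.Helper35.BW
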