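import Pool.Agent.Helper92.BW.GoalsA

/-!
# MP_481f43_lc: packet BW-SCT
-/

namespace Pool.Agent.Helper35.BW

open MeasureTheory Pool.Agent.Helper92.BW
open scoped ENNReal

noncomputable section

theorem sct_aux {n : ℕ} (par : ℕ → ℕ) (G : ℕ) (M : Fin n → ℝ) (hp : ∀ i < n, i < par i) :
    ∀ j ≤ n, ∏ c ∈ Finset.univ.filter (fun c : Fin n => (c : ℕ) < j ∧ j ≤ par c), scT par G M c =
      ∏ v ∈ Finset.univ.filter (fun v : Fin n => (v : ℕ) < j), M v / G := by
  classical
  intro j
  induction j with
  | zero => intro _; simp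
  | succ j ih =>
    intro hj
    have ihj := ih (by omega)
    set v : Fin n := ⟨j, by omega⟩ with hv
    -- the right hand side
    have e1 : Finset.univ.filter (fun w : Fin n => (w : ℕ) < j + 1) =
        insert v (Finset.univ.filter (fun w : Fin n => (w : ℕ) < j)) := by
      ext w
      simp only [Finset.mem_filter, Finset.mem_univ, true_and, Finset.mem_insert, Fin.ext_iff, hv]
      omega
    have n1 : v ∉ Finset.univ.filter (fun w : Fin n => (w : ℕ) < j) := by
      simp [hv]
    -- the left hand side
    have e2 : Finset.univ.filter (fun c : Fin n => (c : ℕ) < j + 1 ∧ j + 1 ≤ par c) =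
        insert v (Finset.univ.filter (fun c : Fin n => (c : ℕ) < j ∧ j + 1 ≤ par c)) := by
      ext w
      simp only [Finset.mem_filter, Finset.mem_univ, true_and, Finset.mem_insert, Fin.ext_iff, hv]
      constructor
      · rintro ⟨h1, h2⟩
        by_cases h : (w : ℕ) = j
        · left; exact h
        · right; exact ⟨by omega, h2⟩
      · rintro (h | ⟨h1, h2⟩)
        · have := hp w w.2
          refine ⟨by omega, ?_⟩
          rw [h] at this ⊢
          omega
        · exact ⟨by omega, h2⟩
    have n2 : v ∉ Finset.univ.filter (fun c : Fin n => (c : ℕ) < j ∧ j + 1 ≤ par c) := by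
      simp [hv]
    have e3 : Finset.univ.filter (fun c : Fin n => (c : ℕ) < j ∧ j ≤ par c) =
        (Finset.univ.filter (fun c : Fin n => c < v ∧ par c = v)) ∪
        (Finset.univ.filter (fun c : Fin n => (c : ℕ) < j ∧ j + 1 ≤ par c)) := by
      ext w
      simp only [Finset.mem_filter, Finset.mem_univ, true_and, Finset.mem_union, Fin.lt_def, hv]
      constructor
      · rintro ⟨h1, h2⟩
        by_cases h : par (w : ℕ) = j
        · left; exact ⟨h1, h⟩
        · right; exact ⟨h1, by omega⟩
      · rintro (⟨h1, h2⟩ | ⟨h1, h2⟩)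
        · exact ⟨h1, by omega⟩
        · exact ⟨h1, by omega⟩
    have d3 : Disjoint (Finset.univ.filter (fun c : Fin n => c < v ∧ par c = v))
        (Finset.univ.filter (fun c : Fin n => (c : ℕ) < j ∧ j + 1 ≤ par c)) := by
      rw [Finset.disjoint_left]
      intro w h1 h2
      simp only [Finset.mem_filter, Finset.mem_univ, true_and, hv] at h1 h2
      omega
    rw [e1, Finset.prod_insert n1, e2, Finset.prod_insert n2, ← ihj, e3, Finset.prod_union d3,
      scT_eq par G M v, mul_assoc]
    congr 2
    exact (Finset.prod_subtype (Finset.univ.filter (fun c : Fin n => c < v ∧ par c = v))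
      (fun x => by simp) (fun c => scT par G M c)).symm

theorem scT_pos {n : ℕ} (par : ℕ → ℕ) (G : ℕ) (M : Fin n → ℝ) (hG : 1 ≤ G) (hM : ∀ v, 0 < M v) :
    ∀ (m : ℕ) (v : Fin n), v.val = m → 0 < scT par G M v := by
  intro m
  induction m using Nat.strong_induction_on with
  | _ m ih =>
  intro v hv
  rw [scT_eq]
  have hG' : (0 : ℝ) < G := by exact_mod_cast hG
  refine mul_pos (div_pos (hM v) hG') (Finset.prod_pos fun c _ => ?_)
  have hc : (c.1 : Fin n).val < m := by
    rw [← hv]
    exact c.2.1
  exact ih _ hc c.1 rfl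

theorem sct : SctStmt := by
  classical
  intro n par G M hp
  refine ⟨?_, fun hG hM v => scT_pos par G M hG hM _ v rfl⟩
  have h := sct_aux par G M hp n le_rfl
  have e1 : Finset.univ.filter (fun v : Fin n => (v : ℕ) < n) = Finset.univ := by
    ext w
    simp
  rw [e1] at h
  rw [← h]
  exact (Finset.prod_subtype (Finset.univ.filter (fun c : Fin n => (c : ℕ) < n ∧ n ≤ par c))
    (fun x => by simp) (fun c => scT par G M c)).symm

end

end Pool.Agent.Helper35.BW
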